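import Pool.Agent.K1H53.BI.Plan3

/-!
# BI3-SB (helper60, task 19554): local bound `C / √n` for sums of independent integer variables

The offspring law is written as a mixture of a fair coin on two of its atoms and of the rest; the
bound `1 / √(1 + m + c n)` for `n` steps of the walk and `m` steps of the coin is proved by induction
on `n`.
-/

set_option autoImplicit false

open scoped ENNReal
open Finset

namespace Pool.Agent.K1H60.BI3

open Pool.Agent.K1H53.BI

lemma cb_sq (n : ℕ) : (2 * n + 1) * (n.centralBinom) ^ 2 ≤ 16 ^ n := by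
  induction n with
  | zero => simp
  | succ n ih =>
    have h1 : (n + 1) * (n + 1).centralBinom = 2 * (2 * n + 1) * n.centralBinom :=
      Nat.succ_mul_centralBinom_succ n
    have h2 : (n + 1) ^ 2 * ((2 * (n + 1) + 1) * ((n + 1).centralBinom) ^ 2) ≤
        (n + 1) ^ 2 * 16 ^ (n + 1) := by
      calc (n + 1) ^ 2 * ((2 * (n + 1) + 1) * ((n + 1).centralBinom) ^ 2)
          = (2 * n + 3) * ((n + 1) * (n + 1).centralBinom) ^ 2 := by ring
        _ = (2 * n + 3) * (4 * (2 * n + 1)) * ((2 * n + 1) * n.centralBinom ^ 2) := by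
          rw [h1]; ring
        _ ≤ (2 * n + 3) * (4 * (2 * n + 1)) * 16 ^ n := Nat.mul_le_mul_left _ ih
        _ ≤ (16 * (n + 1) ^ 2) * 16 ^ n := by
          apply Nat.mul_le_mul_right
          nlinarith
        _ = (n + 1) ^ 2 * 16 ^ (n + 1) := by ring
    exact Nat.le_of_mul_le_mul_left h2 (by positivity)

lemma mid_sq (m : ℕ) : (m + 1) * (m.choose (m / 2)) ^ 2 ≤ 4 ^ m := by
  rcases Nat.even_or_odd' m with ⟨n, rfl | rfl⟩
  · have h := cb_sq n
    rw [Nat.centralBinom_eq_two_mul_choose] at h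
    rw [Nat.mul_div_cancel_left n (by norm_num : 0 < 2), pow_mul]
    norm_num
    exact h
  · have h := cb_sq (n + 1)
    have e1 : (n + 1).centralBinom = 2 * (2 * n + 1).choose n := by
      rw [Nat.centralBinom_eq_two_mul_choose]
      have : 2 * (n + 1) = (2 * n + 1) + 1 := by ring
      rw [this, Nat.choose_succ_succ, Nat.choose_symm_half]
      ring
    have e2 : (2 * n + 1) / 2 = n := by omega
    rw [e1] at h
    rw [e2]
    have e3 : (4 : ℕ) ^ (2 * n + 1) = 4 * 16 ^ n := by
      rw [pow_succ, pow_mul]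
      norm_num
      ring
    rw [e3]
    have e4 : (16 : ℕ) ^ (n + 1) = 4 * (4 * 16 ^ n) := by ring
    rw [e4] at h
    have h5 : 4 * ((2 * n + 1 + 1) * (2 * n + 1).choose n ^ 2) ≤ 4 * (4 * 16 ^ n) := by
      refine le_trans ?_ h
      have : 0 ≤ (2 * n + 1).choose n ^ 2 := Nat.zero_le _
      nlinarith
    exact Nat.le_of_mul_le_mul_left h5 (by norm_num)

lemma choose_le (m J : ℕ) : (m.choose J : ℝ) / 2 ^ m ≤ 1 / Real.sqrt (1 + m) := by
  have h1 : (m.choose J : ℝ) ≤ m.choose (m / 2) := by exact_mod_cast Nat.choose_le_middle J m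
  have h2 : ((m : ℝ) + 1) * (m.choose (m / 2) : ℝ) ^ 2 ≤ 4 ^ m := by exact_mod_cast mid_sq m
  have hs : 0 < Real.sqrt (1 + m) := Real.sqrt_pos.2 (by positivity)
  rw [div_le_div_iff₀ (by positivity) hs, one_mul]
  refine (mul_le_mul_of_nonneg_right h1 hs.le).trans ?_
  apply le_of_sq_le_sq _ (by positivity)
  rw [mul_pow, Real.sq_sqrt (by positivity), ← pow_mul, mul_comm m 2, pow_mul]
  norm_num
  linarith

/-- law of the coin walk with the steps `k1` and `k1 + h` -/
noncomputable def G (k1 h : ℤ) : ℕ → ℤ → ℝ≥0∞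
  | 0, x => if x = 0 then 1 else 0
  | m + 1, x => 2⁻¹ * G k1 h m (x - k1) + 2⁻¹ * G k1 h m (x - k1 - h)

/-- binomial coefficients with an integer argument -/
def chZ (m : ℕ) (J : ℤ) : ℕ := if 0 ≤ J then m.choose J.toNat else 0

lemma chZ_succ (m : ℕ) (J : ℤ) : chZ (m + 1) J = chZ m J + chZ m (J - 1) := by
  unfold chZ
  rcases lt_trichotomy J 0 with h | h | h
  · rw [if_neg (by omega), if_neg (by omega), if_neg (by omega)]
  · subst h
    simp
  · obtain ⟨j, rfl⟩ : ∃ j : ℕ, J = j + 1 := ⟨(J - 1).toNat, by omega⟩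
    rw [if_pos (by omega), if_pos (by omega), if_pos (by omega)]
    have e1 : ((j : ℤ) + 1).toNat = j + 1 := by omega
    have e2 : ((j : ℤ) + 1 - 1).toNat = j := by omega
    rw [e1, e2, Nat.choose_succ_succ, add_comm]

lemma G_eq (k1 h : ℤ) (hh : 0 < h) (m : ℕ) : ∀ x : ℤ, G k1 h m x =
    (if h ∣ x - m * k1 then (chZ m ((x - m * k1) / h) : ℝ≥0∞) else 0) * (2⁻¹) ^ m := by
  induction m with
  | zero =>
    intro x
    simp only [G, Nat.cast_zero, zero_mul, sub_zero, pow_zero, mul_one]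
    by_cases hx : x = 0
    · subst hx
      simp [chZ]
    · rw [if_neg hx]
      by_cases hd : h ∣ x
      · rw [if_pos hd]
        obtain ⟨y, rfl⟩ := hd
        rw [Int.mul_ediv_cancel_left _ hh.ne']
        unfold chZ
        by_cases hy : 0 ≤ y
        · rw [if_pos hy]
          have : y.toNat ≠ 0 := by
            intro h0
            have : y = 0 := by omega
            apply hx
            rw [this, mul_zero]
          rw [Nat.choose_eq_zero_of_lt (by omega)]
          simp
        · rw [if_neg hy]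
          simp
      · rw [if_neg hd]
  | succ m ih =>
    intro x
    have e1 : x - k1 - m * k1 = x - ((m + 1 : ℕ) : ℤ) * k1 := by push_cast; ring
    have e2 : x - k1 - h - m * k1 = x - ((m + 1 : ℕ) : ℤ) * k1 - h := by push_cast; ring
    simp only [G]
    rw [ih, ih, e1, e2]
    set y := x - ((m + 1 : ℕ) : ℤ) * k1 with hy
    by_cases hd : h ∣ y
    · have hd' : h ∣ y - h := Dvd.dvd.sub hd (dvd_refl h)
      rw [if_pos hd, if_pos hd', if_pos hd]
      obtain ⟨z, hz⟩ := hd
      have e3 : y / h = z := by rw [hz]; exact Int.mul_ediv_cancel_left _ hh.ne'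
      have e4 : (y - h) / h = z - 1 := by
        rw [hz]
        have : h * z - h = h * (z - 1) := by ring
        rw [this]
        exact Int.mul_ediv_cancel_left _ hh.ne'
      rw [e3, e4, chZ_succ]
      push_cast
      ring
    · have hd' : ¬ h ∣ y - h := by
        intro hc
        apply hd
        have := Dvd.dvd.add hc (dvd_refl h)
        simpa using this
      rw [if_neg hd, if_neg hd', if_neg hd]
      simp

lemma G_le (k1 h : ℤ) (hh : 0 < h) (m : ℕ) (x : ℤ) :
    G k1 h m x ≤ ENNReal.ofReal (1 / Real.sqrt (1 + m)) := by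
  rw [G_eq k1 h hh]
  by_cases hd : h ∣ x - m * k1
  · rw [if_pos hd]
    unfold chZ
    by_cases hy : 0 ≤ (x - m * k1) / h
    · rw [if_pos hy]
      refine le_trans ?_ (ENNReal.ofReal_le_ofReal (choose_le m ((x - m * k1) / h).toNat))
      rw [div_eq_mul_inv, ENNReal.ofReal_mul (by positivity), ENNReal.ofReal_natCast,
        ENNReal.ofReal_inv_of_pos (by positivity), ENNReal.ofReal_pow (by norm_num),
        ENNReal.inv_pow]
      simp
    · rw [if_neg hy]
      simp
  · rw [if_neg hd]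
    simp

/-- law of the sum of `n` offspring numbers and `m` coins -/
noncomputable def F (ν : PMF ℕ) (k1 h : ℤ) : ℕ → ℕ → ℤ → ℝ≥0∞
  | 0, m, x => G k1 h m x
  | n + 1, m, x => ∑' k : ℕ, ν k * F ν k1 h n m (x - k)

lemma F_coin (ν : PMF ℕ) (k1 h : ℤ) (n : ℕ) : ∀ (m : ℕ) (x : ℤ), F ν k1 h n (m + 1) x =
    2⁻¹ * F ν k1 h n m (x - k1) + 2⁻¹ * F ν k1 h n m (x - k1 - h) := by
  induction n with
  | zero =>
    intro m x
    rfl
  | succ n ih =>
    intro m x
    simp only [F]
    rw [← ENNReal.tsum_mul_left, ← ENNReal.tsum_mul_left, ← ENNReal.tsum_add]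
    refine tsum_congr fun k => ?_
    rw [ih]
    have e1 : x - (k : ℤ) - k1 = x - k1 - k := by ring
    have e3 : x - k1 - (k : ℤ) - h = x - k1 - h - k := by ring
    rw [e1, e3]
    ring

lemma walk_le_F (ν : PMF ℕ) (k1 h : ℤ) (n : ℕ) : ∀ x : ℕ, walk ν n x ≤ F ν k1 h n 0 x := by
  classical
  induction n with
  | zero =>
    intro x
    simp only [walk, F, G, PMF.pure_apply]
    by_cases hx : x = 0
    · simp [hx]
    · simp [hx]
  | succ n ih =>
    intro x
    simp only [walk, F, PMF.bind_apply, PMF.pure_apply]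
    refine ENNReal.tsum_le_tsum fun k => ?_
    refine mul_le_mul_right ?_ _
    by_cases hk : k ≤ x
    · rw [tsum_eq_single (x - k)]
      · rw [if_pos (by omega), mul_one]
        have e : (x : ℤ) - k = ((x - k : ℕ) : ℤ) := by omega
        rw [e]
        exact ih _
      · intro S hS
        rw [if_neg (by omega), mul_zero]
    · refine le_of_eq_of_le (ENNReal.tsum_eq_zero.2 fun S => ?_) zero_le
      rw [if_neg (by omega), mul_zero]

lemma real_step (A q : ℝ) (hA : 1 ≤ A) (hq0 : 0 < q) (hq1 : q ≤ 1) :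
    q * (1 / Real.sqrt (A + 1)) + (1 - q) * (1 / Real.sqrt A) ≤ 1 / Real.sqrt (A + q / 2) := by
  have hA0 : 0 < A := by linarith
  have hs : 0 < Real.sqrt A := Real.sqrt_pos.2 hA0
  set u := 1 / A with hu
  have hu0 : 0 < u := by positivity
  have hu1 : u ≤ 1 := by rw [hu, div_le_one hA0]; exact hA
  have huA : A * u = 1 := by rw [hu]; field_simp
  -- first estimate
  have h1 : 1 / Real.sqrt (A + 1) ≤ (1 / Real.sqrt A) * (1 - u / 4) := by
    have hs1 : 0 < Real.sqrt (A + 1) := Real.sqrt_pos.2 (by linarith)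
    have h2 : Real.sqrt A ≤ Real.sqrt (A + 1) * (1 - u / 4) := by
      have h3 : (0 : ℝ) ≤ 1 - u / 4 := by linarith
      rw [← Real.sqrt_sq h3, ← Real.sqrt_mul (by linarith)]
      apply Real.sqrt_le_sqrt
      have e : (A + 1) * (1 - u / 4) ^ 2 - A = 1 / 2 - 7 / 16 * u + u ^ 2 / 16 := by
        have e2 : A * u ^ 2 = u := by rw [pow_two, ← mul_assoc, huA, one_mul]
        have : (A + 1) * (1 - u / 4) ^ 2 - A =
            1 - (A * u) / 2 + (A * u ^ 2) / 16 - u / 2 + u ^ 2 / 16 := by ring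
        rw [this, huA, e2]
        ring
      nlinarith [sq_nonneg u]
    rw [div_le_iff₀ hs1]
    have : (1 / Real.sqrt A) * (1 - u / 4) * Real.sqrt (A + 1) =
        (Real.sqrt (A + 1) * (1 - u / 4)) / Real.sqrt A := by ring
    rw [this, le_div_iff₀ hs, one_mul]
    exact h2
  -- second estimate
  have h2 : (1 / Real.sqrt A) * (1 - q * u / 4) ≤ 1 / Real.sqrt (A + q / 2) := by
    have hs1 : 0 < Real.sqrt (A + q / 2) := Real.sqrt_pos.2 (by linarith)
    have hqu : q * u ≤ 1 := by nlinarith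
    have hqu0 : 0 < q * u := by positivity
    have h3 : Real.sqrt (A + q / 2) * (1 - q * u / 4) ≤ Real.sqrt A := by
      have h4 : (0 : ℝ) ≤ 1 - q * u / 4 := by linarith
      rw [← Real.sqrt_sq h4, ← Real.sqrt_mul (by linarith)]
      apply Real.sqrt_le_sqrt
      have e : A - (A + q / 2) * (1 - q * u / 4) ^ 2 =
          q * (q * u) * (3 / 16 - (q * u) / 32) := by
        have e2 : A * u ^ 2 = u := by rw [pow_two, ← mul_assoc, huA, one_mul]
        have : A - (A + q / 2) * (1 - q * u / 4) ^ 2 =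
            (A * u) * q / 2 - (A * u ^ 2) * q ^ 2 / 16 - q / 2 + q ^ 2 * u / 4
              - q ^ 3 * u ^ 2 / 32 := by ring
        rw [this, huA, e2]
        ring
      have : 0 ≤ q * (q * u) * (3 / 16 - (q * u) / 32) := by
        apply mul_nonneg (by positivity)
        linarith
      linarith
    rw [le_div_iff₀ hs1]
    have : (1 / Real.sqrt A) * (1 - q * u / 4) * Real.sqrt (A + q / 2) =
        (Real.sqrt (A + q / 2) * (1 - q * u / 4)) / Real.sqrt A := by ring
    rw [this, div_le_iff₀ hs, one_mul]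
    exact h3
  refine le_trans ?_ h2
  have h3 := mul_le_mul_of_nonneg_left h1 hq0.le
  have e : (1 / Real.sqrt A) * (1 - q * u / 4) =
      q * ((1 / Real.sqrt A) * (1 - u / 4)) + (1 - q) * (1 / Real.sqrt A) := by ring
  rw [e]
  linarith

lemma two_atoms (ν : PMF ℕ) (σ2 M : ℝ) (hO : Off ν σ2 M) :
    ∃ a b : ℕ, a < b ∧ ν a ≠ 0 ∧ ν b ≠ 0 := by
  by_contra hcon
  push Not at hcon
  have h1 : ∃ k : ℕ, (ν k).toReal * ((k : ℝ) - 1) ^ 2 ≠ 0 := by
    by_contra h
    push Not at h
    have h2 : HasSum (fun k : ℕ => (ν k).toReal * ((k : ℝ) - 1) ^ 2) 0 := by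
      have : (fun k : ℕ => (ν k).toReal * ((k : ℝ) - 1) ^ 2) = fun _ => 0 := funext h
      rw [this]
      exact hasSum_zero
    have := hO.m2.unique h2
    linarith [hO.pos]
  obtain ⟨k, hk⟩ := h1
  have hk1 : (ν k).toReal ≠ 0 := fun h => hk (by rw [h, zero_mul])
  have hk2 : ((k : ℝ) - 1) ≠ 0 := fun h => hk (by rw [h]; ring)
  have hk3 : ν k ≠ 0 := fun h => hk1 (by rw [h]; rfl)
  have hz : ∀ j, j ≠ k → (ν j).toReal * ((j : ℝ) - 1) = 0 := by
    intro j hj
    have : ν j = 0 := by
      rcases lt_or_gt_of_ne hj with h | h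
      · by_contra h0
        exact hk3 (hcon j k h h0)
      · exact hcon k j h hk3
    rw [this]
    simp
  have h2 := hO.m1.unique (hasSum_single k hz)
  exact mul_ne_zero hk1 hk2 h2.symm

lemma F_le (ν : PMF ℕ) (a b : ℕ) (hab : a < b) (pr : ℝ) (hp : 0 < pr)
    (ha : ENNReal.ofReal pr ≤ ν a) (hb : ENNReal.ofReal pr ≤ ν b) (n : ℕ) :
    ∀ (m : ℕ) (x : ℤ), F ν a ((b : ℤ) - a) n m x ≤
      ENNReal.ofReal (1 / Real.sqrt (1 + m + pr * n)) := by
  classical
  set p : ℝ≥0∞ := ENNReal.ofReal pr with hpd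
  set δ : ℕ → ℝ≥0∞ := fun k => (if k = a then p else 0) + (if k = b then p else 0) with hδ
  set ρ : ℕ → ℝ≥0∞ := fun k => ν k - δ k with hρ
  have hle : ∀ k, δ k ≤ ν k := by
    intro k
    simp only [hδ]
    by_cases h1 : k = a
    · subst h1
      rw [if_pos rfl, if_neg hab.ne, add_zero]
      exact ha
    · by_cases h2 : k = b
      · subst h2
        rw [if_neg h1, if_pos rfl, zero_add]
        exact hb
      · rw [if_neg h1, if_neg h2]
        simp
  have hdec : ∀ k, ν k = δ k + ρ k := fun k => (add_tsub_cancel_of_le (hle k)).symm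
  have hsum : ∀ f : ℕ → ℝ≥0∞, ∑' k, ν k * f k = p * f a + p * f b + ∑' k, ρ k * f k := by
    intro f
    have e1 : ∑' k, ν k * f k = ∑' k, (((if k = a then p else 0) * f k +
        (if k = b then p else 0) * f k) + ρ k * f k) := by
      refine tsum_congr fun k => ?_
      rw [hdec k]
      simp only [hδ]
      ring
    rw [e1, ENNReal.tsum_add, ENNReal.tsum_add]
    congr 2
    · rw [tsum_eq_single a]
      · rw [if_pos rfl]
      · intro j hj
        rw [if_neg hj, zero_mul]
    · rw [tsum_eq_single b]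
      · rw [if_pos rfl]
      · intro j hj
        rw [if_neg hj, zero_mul]
  have hR : p + p + ∑' k, ρ k = 1 := by
    have := hsum (fun _ => 1)
    simp only [mul_one] at this
    rw [← this]
    exact ν.tsum_coe
  set R : ℝ≥0∞ := ∑' k, ρ k with hRd
  have hRtop : R ≠ ⊤ := by
    intro h
    rw [h] at hR
    simp at hR
  have hRr : R.toReal = 1 - 2 * pr := by
    have h1 := congrArg ENNReal.toReal hR
    rw [ENNReal.toReal_add (by simp [hpd]) hRtop, ENNReal.toReal_add (by simp [hpd])
      (by simp [hpd]), hpd, ENNReal.toReal_ofReal hp.le] at h1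
    simp only [ENNReal.toReal_one] at h1
    linarith
  have hR0 : 0 ≤ 1 - 2 * pr := by rw [← hRr]; exact ENNReal.toReal_nonneg
  have hRe : R = ENNReal.ofReal (1 - 2 * pr) := by
    rw [← hRr, ENNReal.ofReal_toReal hRtop]
  induction n with
  | zero =>
    intro m x
    have := G_le a ((b : ℤ) - a) (by omega) m x
    simpa [F] using this
  | succ n ih =>
    intro m x
    have e0 : F ν a ((b : ℤ) - a) (n + 1) m x =
        ∑' k : ℕ, ν k * F ν a ((b : ℤ) - a) n m (x - k) := rfl
    rw [e0, hsum (fun k => F ν a ((b : ℤ) - a) n m (x - k))]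
    have e1 : p * F ν a ((b : ℤ) - a) n m (x - a) + p * F ν a ((b : ℤ) - a) n m (x - b) =
        (2 * p) * F ν a ((b : ℤ) - a) n (m + 1) x := by
      rw [F_coin]
      have e2 : x - (a : ℤ) - ((b : ℤ) - a) = x - b := by ring
      rw [e2]
      have e3 : (2 : ℝ≥0∞) * 2⁻¹ = 1 := ENNReal.mul_inv_cancel (by norm_num) (by norm_num)
      calc p * F ν a ((b : ℤ) - a) n m (x - a) + p * F ν a ((b : ℤ) - a) n m (x - b)
          = (2 * 2⁻¹) * (p * F ν a ((b : ℤ) - a) n m (x - a)) +
            (2 * 2⁻¹) * (p * F ν a ((b : ℤ) - a) n m (x - b)) := by rw [e3, one_mul, one_mul]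
        _ = _ := by ring
    rw [e1]
    set β0 : ℝ := 1 / Real.sqrt (1 + m + pr * n) with hβ0
    set β1 : ℝ := 1 / Real.sqrt (1 + (m + 1 : ℕ) + pr * n) with hβ1
    have hβ00 : 0 ≤ β0 := by positivity
    have hβ10 : 0 ≤ β1 := by positivity
    have h1 : (2 * p) * F ν a ((b : ℤ) - a) n (m + 1) x ≤ (2 * p) * ENNReal.ofReal β1 :=
      mul_le_mul_right (ih (m + 1) x) _
    have h2 : ∑' k, ρ k * F ν a ((b : ℤ) - a) n m (x - k) ≤ R * ENNReal.ofReal β0 := by
      rw [hRd, ← ENNReal.tsum_mul_right]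
      exact ENNReal.tsum_le_tsum fun k => mul_le_mul_right (ih m _) _
    refine (add_le_add h1 h2).trans ?_
    have e2 : (2 : ℝ≥0∞) * p = ENNReal.ofReal (2 * pr) := by
      rw [ENNReal.ofReal_mul (by norm_num), ← hpd]
      simp
    rw [e2, hRe, ← ENNReal.ofReal_mul (by positivity), ← ENNReal.ofReal_mul hR0,
      ← ENNReal.ofReal_add (by positivity) (by positivity)]
    apply ENNReal.ofReal_le_ofReal
    have h3 := real_step (1 + m + pr * n) (2 * pr) (by
      have : (0 : ℝ) ≤ m := Nat.cast_nonneg m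
      have : 0 ≤ pr * n := by positivity
      linarith) (by linarith) (by linarith)
    have e3 : (1 : ℝ) + m + pr * n + 1 = 1 + (m + 1 : ℕ) + pr * n := by push_cast; ring
    have e4 : (1 : ℝ) + m + pr * n + 2 * pr / 2 = 1 + m + pr * ((n + 1 : ℕ) : ℝ) := by
      push_cast; ring
    rw [e3, e4] at h3
    exact h3

theorem t_SB : S_SB := by
  intro ν σ2 M hO
  obtain ⟨a, b, hab, ha, hb⟩ := two_atoms ν σ2 M hO
  have hpa : 0 < (ν a).toReal := ENNReal.toReal_pos ha (ν.apply_ne_top a)
  have hpb : 0 < (ν b).toReal := ENNReal.toReal_pos hb (ν.apply_ne_top b)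
  set pr := min (ν a).toReal (ν b).toReal with hpr
  have hp : 0 < pr := lt_min hpa hpb
  have h1 : ENNReal.ofReal pr ≤ ν a := by
    rw [ENNReal.ofReal_le_iff_le_toReal (ν.apply_ne_top a)]
    exact min_le_left _ _
  have h2 : ENNReal.ofReal pr ≤ ν b := by
    rw [ENNReal.ofReal_le_iff_le_toReal (ν.apply_ne_top b)]
    exact min_le_right _ _
  refine ⟨1 / Real.sqrt pr, by positivity, ?_⟩
  intro n x hn
  refine (walk_le_F ν a ((b : ℤ) - a) n x).trans ?_
  refine (F_le ν a b hab pr hp h1 h2 n 0 x).trans ?_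
  apply ENNReal.ofReal_le_ofReal
  have hn0 : (0 : ℝ) < n := by exact_mod_cast hn
  rw [div_div, ← Real.sqrt_mul hp.le]
  apply one_div_le_one_div_of_le
  · exact Real.sqrt_pos.2 (by positivity)
  · apply Real.sqrt_le_sqrt
    simp only [Nat.cast_zero, add_zero]
    linarith

end Pool.Agent.K1H60.BI3
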